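import Mathlib
import Pool.Agent.X195.GI10

/-!
# The product formula for the cross-index of face posets fails for the cyclic group of order four

Negative answer to Q1 of MP_c446d6_co.  Let `z = c^2` in `G = Z/4`, `H = ⟨z⟩`.  The first complex is
the order complex of the poset coinduced from the four-cycle `Q_1 H` (a torus on which the generator
`c` acts by `(u, v) ↦ (v, z u)`), the second one is the order complex of the poset induced from
`Q_2 H`.  Evaluation maps the product to `Q_1 G`.  A map of one of the face posets to `Q_1 G` would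
give an invariant integer cocycle on the poset whose total along a path from `x` to `c x` is
`1` modulo `4`; this is excluded by a finite computation.
-/

set_option autoImplicit false

namespace Pool.Agent.Results.MP_c446d6_co.ProductFormulaFails

open Pool.Agent.X195.GI

/-- The cyclic group `C4` of order four is nice, and there are two finite free `C4`-simplicial
complexes `K₁`, `K₂` with `Xind F(K₁) = Xind F(K₂) = 2` and `Xind (F(K₁) × F(K₂)) = 1`. -/
theorem result : IsNice C4 ∧ ∃ K₁ K₂ : GComplex C4,
    (∀ g : C4, ∀ σ : Set K₁.V, σ ∈ K₁.faces → (fun v => g • v) '' σ = σ → g = 1) ∧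
    (∀ g : C4, ∀ σ : Set K₂.V, σ ∈ K₂.faces → (fun v => g • v) '' σ = σ → g = 1) ∧
    IsLeast {n : ℕ | K₁.F.HasMap (Q C4 n)} 2 ∧
    IsLeast {n : ℕ | K₂.F.HasMap (Q C4 n)} 2 ∧
    IsLeast {n : ℕ | (K₁.F.prod K₂.F).HasMap (Q C4 n)} 1 := by
  obtain ⟨K₁, K₂, h1, h2, h3, h4, h5⟩ := main_prod'
  exact ⟨C4_nice, K₁, K₂, fun g σ hσ h => F_free h1 g ⟨σ, hσ⟩ (Subtype.ext h),
    fun g σ hσ h => F_free h2 g ⟨σ, hσ⟩ (Subtype.ext h), h3, h4, h5⟩

end Pool.Agent.Results.MP_c446d6_co.ProductFormulaFails
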